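import Pool.Agent.Lib_MP_1fe18a_an.Half
import Pool.Agent.Lib_MP_1fe18a_an.NotInj
import Pool.Agent.Lib_MP_1fe18a_an.SerMono
import Pool.Agent.Lib_MP_1fe18a_an.Root
import Pool.Agent.Lib_MP_1fe18a_an.IntBeta
import Pool.Agent.Lib_MP_1fe18a_an.IntSer
import Pool.Agent.Lib_MP_1fe18a_an.HP
import Pool.Agent.Lib_MP_1fe18a_an.B4

/-!
The John constant: the extremal ratio itself is admissible, and the equation for `λ` has one
positive solution.
-/

set_option autoImplicit false

open Set Filter Topology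

namespace Pool.Agent.JohnIns

open Pool.Agent.JohnC

/-- `c` is admissible: `c ≥ 1`, and every holomorphic function on the unit disc whose derivative
satisfies `0 < m ≤ |f'| ≤ M` with `M / m ≤ c` is injective on the disc. -/
def Admissible (c : ℝ) : Prop :=
  1 ≤ c ∧ ∀ f : ℂ → ℂ, DifferentiableOn ℂ f (Metric.ball 0 1) →
    (∃ m M : ℝ, 0 < m ∧ M / m ≤ c ∧ ∀ z ∈ Metric.ball (0 : ℂ) 1, m ≤ ‖deriv f z‖ ∧
      ‖deriv f z‖ ≤ M) → InjOn f (Metric.ball 0 1)

/-- The equation for `λ`. -/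
def IsRoot (l : ℝ) : Prop :=
  HasSum (fun k : ℕ => k * Real.exp (-(k * Real.pi / (2 * l))) / ((k : ℝ) ^ 2 + l ^ 2))
    (Real.pi / (Real.exp (2 * Real.pi * l) - 1))

theorem isRoot_iff (l : ℝ) (hl : 0 < l) : IsRoot l ↔ RootEq l := by
  unfold IsRoot RootEq
  rw [← hasSum_nat_add_iff' 1]
  have h1 : (fun n : ℕ => ((n + 1 : ℕ) : ℝ) * Real.exp (-(((n + 1 : ℕ) : ℝ) * Real.pi / (2 * l))) /
      (((n + 1 : ℕ) : ℝ) ^ 2 + l ^ 2)) = serT l := by
    funext n
    unfold serT
    push_cast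
    have e : -(((n : ℝ) + 1) * Real.pi / (2 * l)) = -(((n : ℝ) + 1) * Real.pi) / (2 * l) := by
      ring
    rw [e]
    ring
  rw [h1]
  have h2 := (serT_summable l hl).hasSum
  rw [← SerS_eq] at h2
  simp only [Finset.range_one, Finset.sum_singleton, Nat.cast_zero, zero_mul, zero_div, sub_zero]
  constructor
  · intro h
    exact h.unique h2
  · intro h
    rw [h]
    exact h2

/-- a function with constant derivative is injective -/
theorem inj_const {f : ℂ → ℂ} (hf : DifferentiableOn ℂ f (Metric.ball 0 1)) {c : ℂ} (hc : c ≠ 0)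
    (h : ∀ z ∈ Metric.ball (0 : ℂ) 1, deriv f z = c) : InjOn f (Metric.ball 0 1) := by
  have hd : ∀ z ∈ Metric.ball (0 : ℂ) 1, DifferentiableAt ℂ f z := fun z hz =>
    (hf z hz).differentiableAt (Metric.isOpen_ball.mem_nhds hz)
  have key : ∀ z ∈ Metric.ball (0 : ℂ) 1, f z - c * z = f 0 - c * 0 := by
    intro z hz
    have h1 : ∀ w ∈ Metric.ball (0 : ℂ) 1, HasDerivWithinAt (fun w => f w - c * w) 0
        (Metric.ball (0 : ℂ) 1) w := by
      intro w hw
      have h2 := (hd w hw).hasDerivAt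
      rw [h w hw] at h2
      have h3 := h2.sub ((hasDerivAt_id w).const_mul c)
      simp only [mul_one, sub_self] at h3
      exact h3.hasDerivWithinAt
    have h4 := (convex_ball (0 : ℂ) 1).norm_image_sub_le_of_norm_hasDerivWithin_le
      (f' := fun _ => (0 : ℂ)) (C := 0) h1 (by simp) (Metric.mem_ball_self one_pos) hz
    rw [zero_mul, norm_le_zero_iff, sub_eq_zero] at h4
    exact h4
  intro z hz w hw hzw
  have h1 := key z hz
  have h2 := key w hw
  rw [hzw, ← h2] at h1
  have h3 : c * z = c * w := by linear_combination -h1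
  exact mul_left_cancel₀ hc h3

/-- the extremal ratio is admissible -/
theorem inj_of_le (l : ℝ) (hl : 0 < l) (H : HalfPlaneThm l) (f : ℂ → ℂ)
    (hf : DifferentiableOn ℂ f (Metric.ball (0 : ℂ) 1)) (m M : ℝ) (hm : 0 < m)
    (hb : ∀ z ∈ Metric.ball (0 : ℂ) 1, m ≤ ‖deriv f z‖ ∧ ‖deriv f z‖ ≤ M)
    (hM : M / m ≤ Real.exp (l * Real.pi)) : InjOn f (Metric.ball (0 : ℂ) 1) := by
  have hd' : DifferentiableOn ℂ (deriv f) (Metric.ball 0 1) := hf.deriv Metric.isOpen_ball
  by_cases hmax : ∃ z0 ∈ Metric.ball (0 : ℂ) 1, ‖deriv f z0‖ = M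
  · obtain ⟨z0, hz0, hz1⟩ := hmax
    have h1 : IsMaxOn (norm ∘ deriv f) (Metric.ball 0 1) z0 := by
      intro z hz
      show ‖deriv f z‖ ≤ ‖deriv f z0‖
      rw [hz1]
      exact (hb z hz).2
    have h2 := Complex.eqOn_of_isPreconnected_of_isMaxOn_norm
      (convex_ball (0 : ℂ) 1).isPreconnected Metric.isOpen_ball hd' hz0 h1
    refine inj_const hf (c := deriv f z0) ?_ fun z hz => h2 hz
    intro h0
    have := (hb z0 hz0).1
    rw [h0, norm_zero] at this
    linarith
  · push Not at hmax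
    have hlt : ∀ z ∈ Metric.ball (0 : ℂ) 1, ‖deriv f z‖ < M := fun z hz =>
      lt_of_le_of_ne (hb z hz).2 (hmax z hz)
    intro p hp q hq hpq
    rw [mem_ball_zero_iff] at hp hq
    obtain ⟨r, hr1, hr2⟩ := exists_between (max_lt (max_lt hp hq) (zero_lt_one' ℝ))
    have hrp : ‖p‖ < r := lt_of_le_of_lt ((le_max_left _ _).trans (le_max_left _ _)) hr1
    have hrq : ‖q‖ < r := lt_of_le_of_lt ((le_max_right _ _).trans (le_max_left _ _)) hr1
    have hr0 : 0 < r := lt_of_le_of_lt (le_max_right _ _) hr1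
    have hsub : Metric.closedBall (0 : ℂ) r ⊆ Metric.ball 0 1 := Metric.closedBall_subset_ball hr2
    obtain ⟨z1, hz1, hz2⟩ := (isCompact_closedBall (0 : ℂ) r).exists_isMaxOn
      ⟨0, Metric.mem_closedBall_self hr0.le⟩ (hd'.continuousOn.norm.mono hsub)
    set N := ‖deriv f z1‖ with hN
    have hNM : N < M := hlt z1 (hsub hz1)
    have hmN : m ≤ N := (hb z1 (hsub hz1)).1
    have hg : N / m < Real.exp (l * Real.pi) :=
      lt_of_lt_of_le ((div_lt_div_iff_of_pos_right hm).mpr hNM) hM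
    have hmaps : ∀ z ∈ Metric.ball (0 : ℂ) 1, (r : ℂ) * z ∈ Metric.closedBall (0 : ℂ) r := by
      intro z hz
      rw [mem_ball_zero_iff] at hz
      rw [mem_closedBall_zero_iff, norm_mul, Complex.norm_real, Real.norm_of_nonneg hr0.le]
      nlinarith [norm_nonneg z]
    have hder : ∀ z ∈ Metric.ball (0 : ℂ) 1,
        HasDerivAt (fun z => f ((r : ℂ) * z)) (r * deriv f (r * z)) z := by
      intro z hz
      have h1 : DifferentiableAt ℂ f (r * z) :=
        (hf _ (hsub (hmaps z hz))).differentiableAt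
          (Metric.isOpen_ball.mem_nhds (hsub (hmaps z hz)))
      have h2 := h1.hasDerivAt.comp z ((hasDerivAt_id z).const_mul (r : ℂ))
      simp only [mul_one] at h2
      rw [mul_comm]
      exact h2
    have hinj := inj_of_ratio l hl H (N / m) hg (fun z => f ((r : ℂ) * z))
      (fun z hz => (hder z hz).differentiableAt.differentiableWithinAt) (r * m) (r * N)
      (mul_pos hr0 hm) (by
        intro z hz
        rw [(hder z hz).deriv, norm_mul, Complex.norm_real, Real.norm_of_nonneg hr0.le]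
        have h1 := (hb _ (hsub (hmaps z hz))).1
        have h2 : ‖deriv f (r * z)‖ ≤ N := hz2 (hmaps z hz)
        exact ⟨mul_le_mul_of_nonneg_left h1 hr0.le, mul_le_mul_of_nonneg_left h2 hr0.le⟩)
      (by
        apply le_of_eq
        field_simp)
    have hrC : (r : ℂ) ≠ 0 := by exact_mod_cast hr0.ne'
    have hpb : p / r ∈ Metric.ball (0 : ℂ) 1 := by
      rw [mem_ball_zero_iff, norm_div, Complex.norm_real, Real.norm_of_nonneg hr0.le,
        div_lt_one hr0]
      exact hrp
    have hqb : q / r ∈ Metric.ball (0 : ℂ) 1 := by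
      rw [mem_ball_zero_iff, norm_div, Complex.norm_real, Real.norm_of_nonneg hr0.le,
        div_lt_one hr0]
      exact hrq
    have h3 := hinj hpb hqb (by
      show f (r * (p / r)) = f (r * (q / r))
      rw [mul_div_cancel₀ _ hrC, mul_div_cancel₀ _ hrC, hpq])
    field_simp at h3
    exact h3

theorem Bnd_eq (l : ℝ) (hl : 0 < l) :
    Bnd l = 2 * l * (Real.pi / (Real.exp (2 * Real.pi * l) - 1) - SerS l) := by
  unfold Bnd
  rw [int_beta l hl, int_series l hl]
  have h1 : Real.exp (2 * Real.pi * l) = Real.exp (Real.pi * l) ^ 2 := by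
    rw [← Real.exp_nat_mul]; congr 1; push_cast; ring
  have h2 : (1:ℝ) < Real.exp (Real.pi * l) := by
    rw [Real.one_lt_exp_iff]; positivity
  have h3 : Real.exp (-(Real.pi * l)) = (Real.exp (Real.pi * l))⁻¹ := Real.exp_neg _
  rw [Real.sinh_eq, h1, mul_comm l Real.pi, h3]
  set E := Real.exp (Real.pi * l)
  have h4 : E ^ 2 - 1 ≠ 0 := by nlinarith
  have h5 : E ≠ 0 := by positivity
  have h6 : E - E⁻¹ ≠ 0 := by
    intro h
    apply h4
    field_simp at h
    linarith
  field_simp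
  ring

theorem exp_lt_five : Real.exp (Real.pi / 2) < 5 := by
  have h1 : Real.exp (Real.pi / 2) ^ 5 < 5 ^ 5 := by
    have h2 : Real.exp (Real.pi / 2) ^ 5 ≤ Real.exp 1 ^ 8 := by
      rw [← Real.exp_nat_mul, ← Real.exp_nat_mul]
      apply Real.exp_le_exp.mpr
      push_cast
      nlinarith [Real.pi_lt_d2]
    have h3 : Real.exp 1 ^ 8 < 2.7182818286 ^ 8 :=
      pow_lt_pow_left₀ Real.exp_one_lt_d9 (Real.exp_pos 1).le (by norm_num)
    have h4 : (2.7182818286 : ℝ) ^ 8 < 5 ^ 5 := by norm_num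
    linarith
  exact lt_of_pow_lt_pow_left₀ 5 (by norm_num) h1

theorem root_lt_one (l : ℝ) (h : RootEq l) : l < 1 := by
  by_contra hl
  rw [not_lt] at hl
  have hl0 : 0 < l := by linarith
  have hpi := Real.pi_pos
  have h1 : serT l 0 ≤ SerS l := by
    rw [SerS_eq]
    exact (serT_summable l hl0).le_tsum 0 fun k _ => serT_nonneg l k
  have h2 : 1 / (5 * (1 + l ^ 2)) < serT l 0 := by
    unfold serT
    rw [Nat.cast_zero, zero_add, one_mul, one_pow]
    have h3 : (1 : ℝ) / 5 < Real.exp (-Real.pi / (2 * l)) := by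
      have h4 : Real.exp (-(Real.pi / 2)) ≤ Real.exp (-Real.pi / (2 * l)) := by
        apply Real.exp_le_exp.mpr
        rw [neg_div]
        apply neg_le_neg
        apply div_le_div_of_nonneg_left hpi.le (by norm_num) (by linarith)
      have h5 : (1 : ℝ) / 5 < Real.exp (-(Real.pi / 2)) := by
        rw [Real.exp_neg, ← one_div]
        exact one_div_lt_one_div_of_lt (Real.exp_pos _) exp_lt_five
      linarith
    have h6 : (0 : ℝ) < 1 / (1 + l ^ 2) := by positivity
    calc 1 / (5 * (1 + l ^ 2)) = 1 / (1 + l ^ 2) * (1 / 5) := by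
          field_simp
      _ < _ := mul_lt_mul_of_pos_left h3 h6
  have h3 : Real.pi / (Real.exp (2 * Real.pi * l) - 1) ≤ 1 / (5 * (1 + l ^ 2)) := by
    have h4 : Real.exp (2 * Real.pi * l) = Real.exp (Real.pi * l / 2) ^ 4 := by
      rw [← Real.exp_nat_mul]
      congr 1
      push_cast
      ring
    have h5 : 1 + 1.57 * l ≤ Real.exp (Real.pi * l / 2) := by
      have h6 := Real.add_one_le_exp (Real.pi * l / 2)
      nlinarith [Real.pi_gt_d2]
    have h6 : (1 + 1.57 * l) ^ 4 ≤ Real.exp (2 * Real.pi * l) := by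
      rw [h4]
      exact pow_le_pow_left₀ (by positivity) h5 4
    have h7 : 15.75 * (1 + l ^ 2) + 1 ≤ (1 + 1.57 * l) ^ 4 := by
      obtain ⟨t, ht⟩ : ∃ t, t = l - 1 := ⟨_, rfl⟩
      have ht0 : 0 ≤ t := by linarith
      have hlt : l = t + 1 := by linarith
      rw [hlt]
      have e : (1 + 1.57 * (t + 1)) ^ 4 - (15.75 * (1 + (t + 1) ^ 2) + 1) =
          (2.57 ^ 4 - 32.5) + (4 * 2.57 ^ 3 * 1.57 - 31.5) * t +
          (6 * 2.57 ^ 2 * 1.57 ^ 2 - 15.75) * t ^ 2 + 4 * 2.57 * 1.57 ^ 3 * t ^ 3 +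
          1.57 ^ 4 * t ^ 4 := by ring
      have e1 : (0 : ℝ) ≤ 2.57 ^ 4 - 32.5 := by norm_num
      have e2 : (0 : ℝ) ≤ 4 * 2.57 ^ 3 * 1.57 - 31.5 := by norm_num
      have e3 : (0 : ℝ) ≤ 6 * 2.57 ^ 2 * 1.57 ^ 2 - 15.75 := by norm_num
      have e4 : (0 : ℝ) ≤ (1 + 1.57 * (t + 1)) ^ 4 - (15.75 * (1 + (t + 1) ^ 2) + 1) := by
        rw [e]
        positivity
      linarith
    have h8 : 0 < Real.exp (2 * Real.pi * l) - 1 := by nlinarith [sq_nonneg l]
    rw [div_le_div_iff₀ h8 (by positivity)]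
    have h9 : Real.pi * (5 * (1 + l ^ 2)) ≤ 15.75 * (1 + l ^ 2) := by
      nlinarith [Real.pi_lt_d2, sq_nonneg l]
    linarith
  unfold RootEq at h
  linarith

theorem root_unique (l l' : ℝ) (hl : 0 < l) (hl' : 0 < l') (h : RootEq l) (h' : RootEq l') :
    l' = l := by
  have h1 := root_lt_one l h
  have h1' := root_lt_one l' h'
  unfold RootEq at h h'
  rcases lt_trichotomy l l' with hlt | heq | hlt
  · have := ser_mono l l' hl hlt h1'
    linarith [this.1, this.2]
  · exact heq.symm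
  · have := ser_mono l' l hl' hlt h1
    linarith [this.1, this.2]

theorem main : ∃ l : ℝ, 0.627834 < l ∧ l < 0.627835 ∧ IsRoot l ∧
    (∀ l' : ℝ, 0 < l' → IsRoot l' → l' = l) ∧
    IsGreatest {c : ℝ | Admissible c} (Real.exp (l * Real.pi)) := by
  obtain ⟨l, h1, h2, hroot⟩ := root_exists
  have hl : 0 < l := by linarith
  have hB : Bnd l = 0 := by
    have hroot' := hroot
    unfold RootEq at hroot'
    rw [Bnd_eq l hl, hroot']
    ring
  have H : HalfPlaneThm l := half_plane_of_half l hl (half_theorem l h1 h2 hB)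
  refine ⟨l, h1, h2, (isRoot_iff l hl).mpr hroot, fun l' hl' h' =>
    root_unique l l' hl hl' hroot ((isRoot_iff l' hl').mp h'), ⟨?_, ?_⟩, ?_⟩
  · exact Real.one_le_exp (mul_pos hl Real.pi_pos).le
  · rintro f hf ⟨m, M, hm, hM, hb⟩
    exact inj_of_le l hl H f hf m M hm hb hM
  · intro g hg
    by_contra hlt
    rw [not_le] at hlt
    have hg0 : 0 < g := lt_trans (Real.exp_pos _) hlt
    have hlog : l * Real.pi < Real.log g := by
      rw [← Real.log_exp (l * Real.pi)]
      exact Real.log_lt_log (Real.exp_pos _) hlt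
    have hlog' : l < Real.log g / Real.pi := by
      rw [lt_div_iff₀ Real.pi_pos]; exact hlog
    obtain ⟨l', hl1, hl2⟩ := exists_between (lt_min hlog' (show l < 1 by linarith))
    have hl'1 : l' < 1 := lt_of_lt_of_le hl2 (min_le_right _ _)
    have hl'g : l' * Real.pi ≤ Real.log g := by
      have := lt_of_lt_of_le hl2 (min_le_left _ _)
      rw [lt_div_iff₀ Real.pi_pos] at this
      exact this.le
    have hl'0 : 0 < l' := by linarith
    have hneg : Bnd l' < 0 := by
      rw [Bnd_eq l' hl'0]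
      obtain ⟨s1, s2⟩ := ser_mono l l' hl hl1 hl'1
      have : Real.pi / (Real.exp (2 * Real.pi * l') - 1) - SerS l' < 0 := by
        have := hroot
        unfold RootEq at this
        linarith
      have h2l : 0 < 2 * l' := by linarith
      exact mul_neg_of_pos_of_neg h2l this
    obtain ⟨f, hf, hb, hni⟩ := not_inj l' hl'0 hneg
    apply hni
    refine hg.2 f hf ⟨Real.exp (-(l' * Real.pi)), 1, Real.exp_pos _, ?_, hb⟩
    have h3 : Real.exp (l' * Real.pi) ≤ g := by
      rw [← Real.exp_log hg0]; exact Real.exp_le_exp.2 hl'g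
    rw [Real.exp_neg, one_div, inv_inv]
    exact h3

end Pool.Agent.JohnIns
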